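import Mathlib
import Pool.Agent.W811.Stu.Stmts3

/-!
Comparison of the derivatives at the two ends of the holonomy (part SD-COMP).
-/

set_option autoImplicit false

open Filter

namespace Pool.Agent.W338.Stu

open Pool.Agent.W811.Stu

/-! ### tangent vectors -/

lemma tg_R (p u : P3) : gA (stepR p) * (dR p u).z + gB (stepR p) * (dR p u).y
    + gX (stepR p) * (dR p u).x = gA p * u.z + gB p * u.y + gX p * u.x := by
  simp only [gA, gB, gX, stepR, dR]; ring

lemma tg_S (p u : P3) : gA (stepS p) * (dS u).z + gB (stepS p) * (dS u).y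
    + gX (stepS p) * (dS u).x = gA p * u.z + gB p * u.y + gX p * u.x := by
  simp only [gA, gB, gX, stepS, dS]; ring

lemma tg_Rk (k : ℕ) (p u : P3) : gA (stepR^[k] p) * (dRk k p u).z
    + gB (stepR^[k] p) * (dRk k p u).y + gX (stepR^[k] p) * (dRk k p u).x
      = gA p * u.z + gB p * u.y + gX p * u.x := by
  induction k with
  | zero => rfl
  | succ k ih =>
    rw [Function.iterate_succ_apply', dRk, tg_R, ih]

lemma tg_orb (d : ℕ → ℕ) (p u : P3) (m : ℕ) : gA (orb d p m) * (dorb d p u m).z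
    + gB (orb d p m) * (dorb d p u m).y + gX (orb d p m) * (dorb d p u m).x
      = gA p * u.z + gB p * u.y + gX p * u.x := by
  induction m with
  | zero => rfl
  | succ m ih =>
    have e1 : orb d p (m + 1) = stepS (stepR^[d m] (orb d p m)) := rfl
    have e2 : dorb d p u (m + 1) = dS (dRk (d m) (orb d p m) (dorb d p u m)) := rfl
    rw [e1, e2, tg_S, tg_Rk, ih]

lemma tg_fV (p : P3) : gA p * (fV p).z + gB p * (fV p).y + gX p * (fV p).x = 0 := by
  simp only [fV]; ring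

/-- the square of the gradient -/
def n2 (p : P3) : ℝ := gA p ^ 2 + gB p ^ 2 + gX p ^ 2

lemma n2_pos {δ : ℝ} (hδ : δ ≠ 0) {p : P3} (h : OnS δ p) : 0 < n2 p := by
  have h0 : 0 ≤ n2 p := by unfold n2; positivity
  rcases h0.lt_or_eq with h1 | h1
  · exact h1
  exfalso
  unfold n2 at h1
  have hA : gA p ^ 2 = 0 := by nlinarith [sq_nonneg (gA p), sq_nonneg (gB p), sq_nonneg (gX p)]
  have hB : gB p ^ 2 = 0 := by nlinarith [sq_nonneg (gA p), sq_nonneg (gB p), sq_nonneg (gX p)]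
  have hX : gX p ^ 2 = 0 := by nlinarith [sq_nonneg (gA p), sq_nonneg (gB p), sq_nonneg (gX p)]
  rw [h.A2] at hA
  rw [h.B2] at hB
  rw [h.X2] at hX
  have hd : 0 < δ ^ 2 := by positivity
  have e1 : (1 - p.x ^ 2) * (1 - p.y ^ 2) = -δ ^ 2 := by linarith
  have e2 : (1 - p.x ^ 2) * (1 - p.z ^ 2) = -δ ^ 2 := by linarith
  have e3 : (1 - p.y ^ 2) * (1 - p.z ^ 2) = -δ ^ 2 := by linarith
  have e4 : ((1 - p.x ^ 2) * (1 - p.y ^ 2) * (1 - p.z ^ 2)) ^ 2 = -(δ ^ 2) ^ 3 := by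
    calc ((1 - p.x ^ 2) * (1 - p.y ^ 2) * (1 - p.z ^ 2)) ^ 2
        = ((1 - p.x ^ 2) * (1 - p.y ^ 2)) * ((1 - p.x ^ 2) * (1 - p.z ^ 2))
          * ((1 - p.y ^ 2) * (1 - p.z ^ 2)) := by ring
      _ = -(δ ^ 2) ^ 3 := by rw [e1, e2, e3]; ring
  have e5 : 0 < (δ ^ 2) ^ 3 := by positivity
  nlinarith [sq_nonneg ((1 - p.x ^ 2) * (1 - p.y ^ 2) * (1 - p.z ^ 2))]

/-- the coefficients of a tangent vector -/
def cf (p u : P3) : ℝ := |gX p * u.y - gB p * u.x| + |gX p * u.z - gA p * u.x|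
  + |gA p * u.y - gB p * u.z|

lemma cf_nonneg (p u : P3) : 0 ≤ cf p u := by unfold cf; positivity

lemma decomp {p u : P3} (h : gA p * u.z + gB p * u.y + gX p * u.x = 0) :
    lc (n2 p) u 0 u = lc 1 (lc (gX p * u.y - gB p * u.x) (fV p) (gX p * u.z - gA p * u.x) (fH p))
      (gA p * u.y - gB p * u.z) (fK p) := by
  unfold lc fV fH fK n2
  ext
  · simp only
    linear_combination gA p * h
  · simp only
    linear_combination gB p * h
  · simp only
    linear_combination gX p * h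

/-- the derivative of a level function along a tangent vector is controlled by `Vy` -/
lemma dy_le {δ : ℝ} (hδ : δ ≠ 0) {b : ℕ → ℕ} (hb : ∀ k, 1 ≤ b k) {m : ℕ} (hm : 2 ≤ m) {p u : P3}
    (hS : OnS δ p) (hz : |p.z| ≤ 1) (hy : |(orb b p m).y| ≤ 1)
    (h : gA p * u.z + gB p * u.y + gX p * u.x = 0) :
    |(dorb b p u m).y| ≤ cf p u / n2 p * (1 + N0 δ 1) * |Vy b m p| := by
  have hd : 0 < δ ^ 2 := by positivity
  have hz2 : p.z ^ 2 ≤ 1 := by rw [← sq_abs]; nlinarith [abs_nonneg p.z]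
  have hy2 : (orb b p m).y ^ 2 < 1 + δ ^ 2 := by
    rw [← sq_abs]; nlinarith [abs_nonneg (orb b p m).y]
  obtain ⟨c1, c2, -⟩ := cmpY hδ zero_le_one (by linarith) hb hm hS hz2 hy2
  have hN : 1 ≤ N0 δ 1 := N0_ge hδ zero_le_one (by linarith)
  have h1 := congrArg (fun w => (dorb b p w m).y) (decomp h)
  simp only [dorb_lc] at h1
  simp only [lc] at h1
  have hn := n2_pos hδ hS
  have hV : (dorb b p (fV p) m).y = Vy b m p := rfl
  rw [hV] at h1
  set V := Vy b m p
  set H := (dorb b p (fH p) m).y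
  set K := (dorb b p (fK p) m).y
  set a := gX p * u.y - gB p * u.x with ha
  set b' := gX p * u.z - gA p * u.x with hb'
  set k := gA p * u.y - gB p * u.z with hk
  have h2 : n2 p * |(dorb b p u m).y| ≤ cf p u * (1 + N0 δ 1) * |V| := by
    have e1 : n2 p * (dorb b p u m).y = a * V + b' * H + k * K := by linarith
    have e2 : n2 p * |(dorb b p u m).y| = |a * V + b' * H + k * K| := by
      rw [← e1, abs_mul, abs_of_pos hn]
    rw [e2]
    have e3 : |a * V + b' * H + k * K| ≤ |a| * |V| + |b'| * |H| + |k| * |K| := by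
      refine (abs_add_le _ _).trans ?_
      rw [abs_mul]
      have := abs_add_le (a * V) (b' * H)
      rw [abs_mul, abs_mul] at this
      linarith
    have e4 : |b'| * |H| ≤ |b'| * (N0 δ 1 * |V|) := mul_le_mul_of_nonneg_left c1 (abs_nonneg _)
    have e5 : |k| * |K| ≤ |k| * (N0 δ 1 * |V|) := mul_le_mul_of_nonneg_left c2 (abs_nonneg _)
    have e6 : cf p u = |a| + |b'| + |k| := rfl
    rw [e6]
    have e7 : 0 ≤ |a| * |V| := by positivity
    have e8 : 0 ≤ |b'| * |V| := by positivity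
    have e9 : 0 ≤ |k| * |V| := by positivity
    have e10 : 0 ≤ |a| * |V| * N0 δ 1 := by positivity
    nlinarith
  have h3 : |(dorb b p u m).y| = (n2 p * |(dorb b p u m).y|) / n2 p := by field_simp
  rw [h3]
  have h4 : cf p u / n2 p * (1 + N0 δ 1) * |V| = (cf p u * (1 + N0 δ 1) * |V|) / n2 p := by ring
  rw [h4]
  exact div_le_div_of_nonneg_right h2 hn.le

/-! ### the digits -/

lemma cat_ge {d b : ℕ → ℕ} (hd : ∀ k, 1 ≤ d k) (hb : ∀ k, 1 ≤ b k) (n k : ℕ) :
    1 ≤ cat d n b k := by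
  unfold cat
  split_ifs
  · exact hd k
  · exact hb _

lemma cat_tail (d b : ℕ → ℕ) (n : ℕ) : (fun k => cat d n b (n + 1 + k)) = b := by
  funext k
  unfold cat
  rw [if_neg (by omega)]
  congr 1
  omega

lemma orb_cat (lam : ℝ) (d b : ℕ → ℕ) (n m : ℕ) (e : ℝ) :
    orb (cat d n b) (lin lam e) (n + 1 + m) = orb b (Ga lam d n e) m := by
  rw [orb_add, cat_tail]
  have : orb (cat d n b) (lin lam e) (n + 1) = Ga lam d n e :=
    orb_congr _ fun k hk => if_pos (by omega)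
  rw [this]

lemma Vy_cat (lam : ℝ) (d b : ℕ → ℕ) (n m : ℕ) (e : ℝ) :
    Vy (cat d n b) (n + 1 + m) (lin lam e) =
      (dorb b (Ga lam d n e) (dorb d (lin lam e) (fV (lin lam e)) (n + 1)) m).y := by
  unfold Vy
  rw [dorb_add, cat_tail]
  have h1 : orb (cat d n b) (lin lam e) (n + 1) = Ga lam d n e :=
    orb_congr _ fun k hk => if_pos (by omega)
  have h2 : dorb (cat d n b) (lin lam e) (fV (lin lam e)) (n + 1)
      = dorb d (lin lam e) (fV (lin lam e)) (n + 1) :=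
    dorb_congr _ _ fun k hk => if_pos (by omega)
  rw [h1, h2]

/-! ### continuity along the starting line -/

lemma cont_Ga (lam : ℝ) (d : ℕ → ℕ) (n : ℕ) : Continuous fun e => toL (Ga lam d n e) := by
  have := (cont_orb d (n + 1)).comp (cont_lin lam)
  simp only [Function.comp_def, ofL_toL] at this
  exact this

lemma cont_orb_lin (lam : ℝ) (d : ℕ → ℕ) (n : ℕ) :
    Continuous fun e => (orb d (lin lam e) n).y := by
  have := (cont_orb d n).comp (cont_lin lam)
  simp only [Function.comp_def, ofL_toL] at this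
  exact cont_toL_y this

lemma cont_U (lam : ℝ) (d : ℕ → ℕ) (n : ℕ) :
    Continuous fun e => toL (dorb d (lin lam e) (fV (lin lam e)) n) := by
  have h1 := cont_fV.comp (cont_lin lam)
  simp only [Function.comp_def, ofL_toL] at h1
  have h2 := (cont_dorb d n).comp ((cont_lin lam).prodMk h1)
  simp only [Function.comp_def, ofL_toL] at h2
  exact h2

lemma onS_Ga (lam : ℝ) (d : ℕ → ℕ) (n : ℕ) (e : ℝ) : OnS (lam / 2) (Ga lam d n e) :=
  (onS_lin lam e).orb d (n + 1)

/-- the uniform bound of the coefficients -/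
lemma exists_G {lam : ℝ} (h : lam ≠ 0) (d : ℕ → ℕ) (n : ℕ) (a b : ℝ) : ∃ G : ℝ, 0 ≤ G ∧
    ∀ e ∈ Set.Icc a b, cf (Ga lam d n e) (dorb d (lin lam e) (fV (lin lam e)) (n + 1))
      / n2 (Ga lam d n e) ≤ G := by
  have hl : lam / 2 ≠ 0 := div_ne_zero h two_ne_zero
  have c1 := cont_Ga lam d n
  have c2 := cont_U lam d (n + 1)
  have z1 := cont_toL_z c1
  have y1 := cont_toL_y c1
  have x1 := cont_toL_x c1
  have z2 := cont_toL_z c2
  have y2 := cont_toL_y c2
  have x2 := cont_toL_x c2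
  have hc : Continuous fun e => cf (Ga lam d n e) (dorb d (lin lam e) (fV (lin lam e)) (n + 1))
      / n2 (Ga lam d n e) := by
    refine Continuous.div ?_ ?_ fun e => (n2_pos hl (onS_Ga lam d n e)).ne'
    · unfold cf gA gB gX
      fun_prop
    · unfold n2 gA gB gX
      fun_prop
  obtain ⟨G, hG⟩ := (isCompact_Icc (a := a) (b := b)).bddAbove_image hc.continuousOn
  refine ⟨max G 0, le_max_right _ _, fun e he => ?_⟩
  exact (hG ⟨e, he, rfl⟩).trans (le_max_left _ _)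

lemma exists_eta (lam : ℝ) (d : ℕ → ℕ) (n : ℕ) (e0 e1 : ℝ)
    (hw : ∀ e ∈ Set.Icc e0 e1, |(orb d (lin lam e) n).y| ≤ 1 / 2) : ∃ η : ℝ, 0 < η ∧ η ≤ 1 ∧
    ∀ E1 ∈ Set.Icc e0 e1, ∀ e, |e - E1| ≤ η → |(orb d (lin lam e) n).y| ≤ 1 := by
  have hc := (cont_orb_lin lam d n).continuousOn (s := Set.Icc (e0 - 1) (e1 + 1))
  have hu := isCompact_Icc.uniformContinuousOn_of_continuous hc
  rw [Metric.uniformContinuousOn_iff] at hu
  obtain ⟨η', hη', h⟩ := hu (1 / 2) (by norm_num)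
  refine ⟨min 1 (η' / 2), by positivity, min_le_left _ _, fun E1 hE1 e he => ?_⟩
  have h1 : |e - E1| ≤ 1 := he.trans (min_le_left _ _)
  have h2 : |e - E1| ≤ η' / 2 := he.trans (min_le_right _ _)
  rw [abs_le] at h1
  have h3 := h e ⟨by linarith [hE1.1], by linarith [hE1.2]⟩ E1
    ⟨by linarith [hE1.1], by linarith [hE1.2]⟩ (by rw [Real.dist_eq]; linarith)
  rw [Real.dist_eq] at h3
  have h4 := hw E1 hE1
  have h5 : |(orb d (lin lam e) n).y| ≤ |(orb d (lin lam e) n).y - (orb d (lin lam E1) n).y|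
      + |(orb d (lin lam E1) n).y| := by
    have := abs_add_le ((orb d (lin lam e) n).y - (orb d (lin lam E1) n).y)
      (orb d (lin lam E1) n).y
    rwa [sub_add_cancel] at this
  linarith

/-- **comparison of the derivatives at the two ends of the holonomy** -/
theorem comp (h1 : TExit) (h2 : TEdge) (h3 : TDist) (h4 : TLB) (h5 : TJoin) : TComp := by
  intro lam κ1 κ hlam hκ1 hκ hc d n hd e0 e1 hW
  have hlam0 : lam ≠ 0 := hlam.ne'
  have hδ : lam / 2 ≠ 0 := div_ne_zero hlam0 two_ne_zero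
  have hκpos : 0 < κ := by linarith
  set c := cc (lam / 2) with hcdef
  set K := Real.exp (2 * κ / (c - κ)) with hK
  have hKpos : 0 < K := Real.exp_pos _
  obtain ⟨G, hG0, hG⟩ := exists_G hlam0 d n (e0 - 1) (e1 + 1)
  obtain ⟨η, hη, hη1, hη2⟩ := exists_eta lam d n e0 e1 hW.2
  obtain ⟨c0, hc0, hLB⟩ := h4 (lam / 2) κ hδ hκpos.le hc
  obtain ⟨j, hj⟩ := pow_unbounded_of_one_lt (2 * κ * lam * K / (η * c0)) one_lt_two
  have hN : 1 ≤ N0 (lam / 2) 1 := N0_ge hδ zero_le_one (by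
    have : 0 < (lam / 2) ^ 2 := by positivity
    linarith)
  set K1 := Real.exp (2 / (c - 1)) with hK1
  have hK1pos : 0 < K1 := Real.exp_pos _
  refine ⟨2 * j + 2, K * K * (G * (1 + N0 (lam / 2) 1)) * K1 * K + 1, by omega, by positivity, ?_⟩
  intro E0 E1 hH b m hb hm hCtl E' hE'
  have hm2 : 2 ≤ m := by omega
  set D := cat d n b with hD
  have hDge : ∀ k, 1 ≤ D k := cat_ge hd hb n
  obtain ⟨hE1, hJ, -⟩ := h5 lam hlam0 d n hd e0 e1 hW E0 E1 hH
  obtain ⟨hf1, hJ1⟩ := hJ b m κ1 hCtl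
  have hJ2 := hJ1 κ hκ
  have horb : ∀ e, orb D (lin lam e) (n + 1 + m) = orb b (Ga lam d n e) m := orb_cat lam d b n m
  obtain ⟨-, hDist⟩ := h3 lam hlam0 D hDge (n + 1 + m)
  obtain ⟨hD1, hD2⟩ := hDist κ hκpos hc
  -- step 1
  have s1 : |Vy D (n + 1 + m) (lin lam E')| ≤ K * |Vy D (n + 1 + m) (lin lam E1)| := by
    refine (hD1 E' E1 fun e he => ?_).1
    rw [horb]
    rw [Set.uIcc_comm] at he
    exact hE' e he
  -- step 2
  obtain ⟨u, v, hu, hv, huv, hband, hends⟩ := hD2 E1 (by rw [horb]; linarith)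
  have hcont := cont_orb_lin lam D (n + 1 + m)
  obtain ⟨e, heuv, hfe⟩ : ∃ e ∈ Set.Icc u v, (orb D (lin lam e) (n + 1 + m)).y = 1 := by
    rcases hends with ⟨hu1, hv1⟩ | ⟨hu1, hv1⟩
    · have := intermediate_value_Icc huv.le (hcont.continuousOn (s := Set.Icc u v))
      obtain ⟨e, he, he2⟩ := this (show (1 : ℝ) ∈ Set.Icc _ _ by
        rw [hu1, hv1]; exact ⟨by linarith, by linarith⟩)
      exact ⟨e, he, he2⟩
    · have := intermediate_value_Icc' huv.le (hcont.continuousOn (s := Set.Icc u v))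
      obtain ⟨e, he, he2⟩ := this (show (1 : ℝ) ∈ Set.Icc _ _ by
        rw [hu1, hv1]; exact ⟨by linarith, by linarith⟩)
      exact ⟨e, he, he2⟩
  have hsub : Set.uIcc E1 e ⊆ Set.Icc u v :=
    Set.uIcc_subset_Icc ⟨hu, hv⟩ heuv
  obtain ⟨s2, s3⟩ := hD1 E1 e fun e' he' => hband e' (hsub he')
  -- step 3
  have hEe : |E1 - e| ≤ η := by
    have t1 := hLB D hDge (n + 1 + m) (by omega) (lin lam E1) (onS_lin lam E1)
      (by show |(1 : ℝ)| ≤ 1; norm_num) (by rw [horb]; linarith)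
    have t2 : (2 : ℝ) ^ j ≤ 2 ^ ((n + 1 + m) / 2) :=
      pow_le_pow_right₀ one_le_two (by omega)
    have t3 : 2 * κ * lam * K < (η * c0) * 2 ^ j := by
      rw [div_lt_iff₀ (by positivity)] at hj
      linarith
    have t4 : |E1 - e| * (c0 * 2 ^ ((n + 1 + m) / 2)) ≤ 2 * κ * |lam| * K :=
      (mul_le_mul_of_nonneg_left t1 (abs_nonneg _)).trans s3
    rw [abs_of_pos hlam] at t4
    have t5 : |E1 - e| * (c0 * 2 ^ ((n + 1 + m) / 2)) ≤ η * (c0 * 2 ^ ((n + 1 + m) / 2)) := by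
      have : (η * c0) * 2 ^ j ≤ (η * c0) * 2 ^ ((n + 1 + m) / 2) :=
        mul_le_mul_of_nonneg_left t2 (by positivity)
      linarith
    exact le_of_mul_le_mul_right t5 (by positivity)
  have hnear : ∀ e' ∈ Set.uIcc E1 e, |e' - E1| ≤ η := by
    intro e' he'
    refine le_trans ?_ hEe
    rw [abs_sub_comm E1 e]
    exact Set.abs_sub_left_of_mem_uIcc he'
  have hz : ∀ e' ∈ Set.uIcc E1 e, |(Ga lam d n e').z| ≤ 1 := by
    intro e' he'
    have : (Ga lam d n e').z = (orb d (lin lam e') n).y := orb_succ_z _ _ _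
    rw [this]
    exact hη2 E1 hE1 e' (hnear e' he')
  -- step 4
  have hJ3 : JoinedIn (Reg (lam / 2) κ b m) (toL (Ga lam d n E1)) (toL (Ga lam d n e)) := by
    refine JoinedIn.ofLine (f := fun t : ℝ => toL (Ga lam d n (AffineMap.lineMap E1 e t))) ?_ ?_ ?_ ?_
    · refine Continuous.continuousOn ?_
      exact (cont_Ga lam d n).comp (AffineMap.lineMap_continuous)
    · simp
    · simp
    · rintro _ ⟨t, ht, rfl⟩
      have hmem : AffineMap.lineMap E1 e t ∈ Set.uIcc E1 e := by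
        rw [← segment_eq_uIcc, segment_eq_image_lineMap]
        exact ⟨t, ht, rfl⟩
      refine ⟨onS_Ga lam d n _, hz _ hmem, ?_⟩
      show |(orb b (Ga lam d n _) m).y| ≤ κ
      rw [← horb]
      exact hband _ (hsub hmem)
  obtain ⟨Ee, hJe, hEe0, -⟩ := h1 lam hlam0 b hb m hm2 κ hc E0 (Ga lam d n e) (hJ2.trans hJ3)
  have hf : (orb b (Ga lam d n e) m).y = 1 := by rw [← horb]; exact hfe
  -- step 5
  have s5 := h2 lam hlam0 b hb m hm2 (Ga lam d n e) Ee hJe hf
  obtain ⟨-, hDist'⟩ := h3 lam hlam0 b hb m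
  have s6 := ((hDist' κ hκpos hc).1 Ee E0 fun e' he' => by
    rw [Set.uIcc_comm] at he'
    exact hEe0 e' he').1
  -- step 6
  have s7 : |Vy D (n + 1 + m) (lin lam e)| ≤
      G * (1 + N0 (lam / 2) 1) * |Vy b m (Ga lam d n e)| := by
    rw [hD, Vy_cat]
    have t1 := dy_le hδ hb hm2 (onS_Ga lam d n e) (hz e Set.right_mem_uIcc)
      (by rw [hf]; norm_num)
      (u := dorb d (lin lam e) (fV (lin lam e)) (n + 1)) (by
        have := tg_orb d (lin lam e) (fV (lin lam e)) (n + 1)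
        rw [tg_fV] at this
        exact this)
    refine t1.trans (mul_le_mul_of_nonneg_right (mul_le_mul_of_nonneg_right ?_ (by linarith))
      (abs_nonneg _))
    have t2 := hnear e Set.right_mem_uIcc
    rw [abs_le] at t2
    exact hG e ⟨by linarith [hE1.1], by linarith [hE1.2]⟩
  -- conclusion
  have hV0 : 0 ≤ |Vy b m (lin lam E0)| := abs_nonneg _
  calc |Vy D (n + 1 + m) (lin lam E')| ≤ K * |Vy D (n + 1 + m) (lin lam E1)| := s1
    _ ≤ K * (K * |Vy D (n + 1 + m) (lin lam e)|) := mul_le_mul_of_nonneg_left s2 hKpos.le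
    _ ≤ K * (K * (G * (1 + N0 (lam / 2) 1) * |Vy b m (Ga lam d n e)|)) :=
        mul_le_mul_of_nonneg_left (mul_le_mul_of_nonneg_left s7 hKpos.le) hKpos.le
    _ ≤ K * (K * (G * (1 + N0 (lam / 2) 1) * (K1 * |Vy b m (lin lam Ee)|))) := by
        refine mul_le_mul_of_nonneg_left (mul_le_mul_of_nonneg_left
          (mul_le_mul_of_nonneg_left s5 ?_) hKpos.le) hKpos.le
        exact mul_nonneg hG0 (by linarith)
    _ ≤ K * (K * (G * (1 + N0 (lam / 2) 1) * (K1 * (K * |Vy b m (lin lam E0)|)))) := by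
        refine mul_le_mul_of_nonneg_left (mul_le_mul_of_nonneg_left
          (mul_le_mul_of_nonneg_left (mul_le_mul_of_nonneg_left s6 hK1pos.le) ?_) hKpos.le)
          hKpos.le
        exact mul_nonneg hG0 (by linarith)
    _ = K * K * (G * (1 + N0 (lam / 2) 1)) * K1 * K * |Vy b m (lin lam E0)| := by ring
    _ ≤ (K * K * (G * (1 + N0 (lam / 2) 1)) * K1 * K + 1) * |Vy b m (lin lam E0)| := by
        nlinarith

end Pool.Agent.W338.Stu
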