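import Mathlib
import Pool.Agent.W811.Stu.Stmts4
import Pool.Agent.W308.Stu.Bdd

/-!
Regularity of the holonomy from its parts (SD-HOLC).
-/

set_option autoImplicit false

open Filter Topology

namespace Pool.Agent.W338.Stu

open Pool.Agent.W811.Stu

lemma valid_mono {lam : ℝ} {β : ℕ → ℕ} {E0 : ℝ} {j0 K0 j1 K1 : ℕ} (hj : j1 ≤ j0) (hK : K1 ≤ K0)
    {s : St} (h : s.Valid lam β E0 j0 K0) : s.Valid lam β E0 j1 K1 := by
  cases s with
  | Y j => exact ⟨hj.trans h.1, h.2⟩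
  | T j k => exact ⟨by have := h.1; omega, h.2.1, hK.trans h.2.2.1, h.2.2.2⟩

/-- lower bound of the derivative of the level function of a state -/
lemma D_lower {lam : ℝ} (hlam : 0 < lam) (hy : THyp) {c0 : ℝ}
    (hLB : ∀ d : ℕ → ℕ, (∀ k, 1 ≤ d k) → ∀ m, 2 ≤ m → ∀ p : P3, OnS (lam / 2) p → |p.z| ≤ 1 →
      |(orb d p m).y| ≤ 1 → c0 * 2 ^ (m / 2) ≤ |Vy d m p|)
    {β : ℕ → ℕ} (hβ : ∀ k, 1 ≤ β k) {E0 : ℝ} (hE0 : E0 ∈ Sp lam β) {j0 K0 : ℕ} (hj0 : 2 ≤ j0)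
    (hK0 : 1 ≤ K0) {s : St} (hs : s.Valid lam β E0 j0 K0) :
    c0 * 2 ^ (s.lv / 2) ≤ s.D lam β E0 := by
  have hz : |(lin lam E0).z| ≤ 1 := by show |(1 : ℝ)| ≤ 1; norm_num
  have hδ : lam / 2 ≠ 0 := by positivity
  cases s with
  | Y j =>
    obtain ⟨h1, h2⟩ := hs
    exact hLB β hβ j (by omega) _ (onS_lin lam E0) hz h2
  | T j k =>
    obtain ⟨h1, h2, h3, h4⟩ := hs
    have hd : ∀ i, 1 ≤ Function.update β j k i := by
      intro i
      by_cases hi : i = j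
      · rw [hi, Function.update_self]; omega
      · rw [Function.update_of_ne hi]; exact hβ i
    refine hLB (Function.update β j k) hd (j + 1) (by omega) _ (onS_lin lam E0) hz ?_
    rw [tf_eq_orb]
    obtain ⟨K, hK⟩ := hy (lam / 2) 1 1 hδ zero_le_one (one_lt_cc hδ)
    obtain ⟨i, rfl⟩ : ∃ i, j = i + 1 := ⟨j - 1, by omega⟩
    have a1 : |(orb β (lin lam E0) i).y| ≤ 1 := by
      rcases hE0 i with h | h
      · exact h
      · exact absurd h (not_le.2 h2)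
    have a2 : |(orb β (lin lam E0) (i + 1 + 1)).y| ≤ 1 := by
      rcases hE0 (i + 1) with h | h
      · exact absurd h (not_le.2 h2)
      · exact h
    rw [← orb_succ_z] at a1
    rw [orb_succ_y] at a2
    exact (hK (orb β (lin lam E0) (i + 1)) (β (i + 1)) ((onS_lin lam E0).orb β _) h2 a1 a2).1 k
      h4.le

lemma start_valid {lam : ℝ} {β : ℕ → ℕ} {E0 : ℝ} (hE0 : E0 ∈ Sp lam β) (j0 K0 : ℕ) :
    (St.Y j0).Valid lam β E0 j0 K0 ∨ (St.Y (j0 + 1)).Valid lam β E0 j0 K0 := by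
  rcases hE0 j0 with h | h
  · exact Or.inl ⟨le_rfl, h⟩
  · exact Or.inr ⟨by omega, h⟩

/-- the states of bounded level form a finite set -/
lemma finite_states (β : ℕ → ℕ) (lam E0 : ℝ) (j0 K0 N : ℕ) :
    {s : St | s.Valid lam β E0 j0 K0 ∧ s.lv < N}.Finite := by
  have h1 : {s : St | s.Valid lam β E0 j0 K0 ∧ s.lv < N} ⊆
      (St.Y '' (Finset.range N : Set ℕ)) ∪
      ((fun q : ℕ × ℕ => St.T q.1 q.2) '' ((Finset.range N).biUnion fun j =>
        (Finset.range (β j)).image fun k => (j, k) : Finset (ℕ × ℕ))) := by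
    rintro s ⟨h1, h2⟩
    cases s with
    | Y j => exact Or.inl ⟨j, Finset.mem_coe.2 (Finset.mem_range.2 (show j < N from h2)), rfl⟩
    | T j k =>
      refine Or.inr ⟨(j, k), ?_, rfl⟩
      have h3 : j + 1 < N := h2
      have h4 : k < β j := h1.2.2.2
      simp only [Finset.coe_biUnion, Set.mem_iUnion, Finset.coe_image, Set.mem_image,
        Finset.mem_coe, Finset.mem_range]
      exact ⟨j, by omega, k, h4, rfl⟩
  exact Set.Finite.subset (((Finset.finite_toSet _).image _).union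
    ((Finset.finite_toSet _).image _)) h1

/-- powers of the digits are dominated by the exponential growth of the derivatives -/
lemma growth {β : ℕ → ℕ} {n : ℕ} (hβ : ∀ᶠ l in atTop, β l ≤ (n + 2 + l) ^ 2) {c0 Cr r : ℝ}
    (hc0 : 0 < c0) (hCr : 1 ≤ Cr) (hr : r < 1) :
    ∃ C' : ℝ, 0 < C' ∧ ∀ l : ℕ,
      Cr * (1 + (β l : ℝ)) ^ 3 * (c0 * 2 ^ (l / 2)) ^ (-(1 - r)) ≤ C' := by
  set ρ : ℝ := (2 : ℝ) ^ (-(1 - r) / 2) with hρ
  have hρ0 : 0 < ρ := Real.rpow_pos_of_pos two_pos _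
  have hρ1 : ρ < 1 := Real.rpow_lt_one_of_one_lt_of_neg one_lt_two (by linarith)
  obtain ⟨B, hB⟩ := (tendsto_pow_const_mul_const_pow_of_lt_one 6 hρ0.le hρ1).bddAbove_range
  have hpow : ∀ l : ℕ, ((2 : ℝ) ^ (l / 2)) ^ (-(1 - r)) ≤ ρ ^ l * (ρ ^ 1)⁻¹ := by
    intro l
    have h1 : (2 : ℝ) ^ (l / 2) = (2 : ℝ) ^ (((l / 2 : ℕ) : ℝ)) := (Real.rpow_natCast 2 _).symm
    rw [h1, ← Real.rpow_mul two_pos.le]
    have h2 : ρ ^ l * (ρ ^ 1)⁻¹ = (2 : ℝ) ^ (-(1 - r) / 2 * ((l : ℝ) - 1)) := by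
      rw [pow_one, hρ, ← Real.rpow_natCast, ← Real.rpow_mul two_pos.le, ← Real.rpow_neg two_pos.le,
        ← Real.rpow_add two_pos]
      congr 1
      ring
    rw [h2]
    refine Real.rpow_le_rpow_of_exponent_le one_le_two ?_
    have h3 : (l : ℝ) - 1 ≤ 2 * ((l / 2 : ℕ) : ℝ) := by
      have : l ≤ 2 * (l / 2) + 1 := by omega
      have : (l : ℝ) ≤ 2 * ((l / 2 : ℕ) : ℝ) + 1 := by exact_mod_cast this
      linarith
    nlinarith
  have hK : 0 < c0 ^ (-(1 - r)) := Real.rpow_pos_of_pos hc0 _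
  have hbd : ∀ᶠ l : ℕ in atTop, Cr * (1 + (β l : ℝ)) ^ 3 * (c0 * 2 ^ (l / 2)) ^ (-(1 - r)) ≤
      Cr * B * c0 ^ (-(1 - r)) * (ρ ^ (n + 3))⁻¹ * (ρ ^ 1)⁻¹ := by
    filter_upwards [hβ] with l hl
    have h1 : (β l : ℝ) ≤ ((n : ℝ) + 2 + l) ^ 2 := by exact_mod_cast hl
    have h2 : (1 + (β l : ℝ)) ^ 3 ≤ ((l + (n + 3) : ℕ) : ℝ) ^ 6 := by
      have h3 : 1 + (β l : ℝ) ≤ (((l + (n + 3) : ℕ) : ℝ)) ^ 2 := by
        push_cast
        have : (0 : ℝ) ≤ (n : ℝ) + 2 + l := by positivity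
        nlinarith
      calc (1 + (β l : ℝ)) ^ 3 ≤ ((((l + (n + 3) : ℕ) : ℝ)) ^ 2) ^ 3 :=
            pow_le_pow_left₀ (by positivity) h3 3
        _ = _ := by ring
    have h3 : (c0 * 2 ^ (l / 2)) ^ (-(1 - r)) =
        c0 ^ (-(1 - r)) * ((2 : ℝ) ^ (l / 2)) ^ (-(1 - r)) :=
      Real.mul_rpow hc0.le (by positivity)
    have h4 : ((l + (n + 3) : ℕ) : ℝ) ^ 6 * ρ ^ (l + (n + 3)) ≤ B := hB ⟨l + (n + 3), rfl⟩
    rw [h3]
    calc Cr * (1 + (β l : ℝ)) ^ 3 * (c0 ^ (-(1 - r)) * ((2 : ℝ) ^ (l / 2)) ^ (-(1 - r)))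
        ≤ Cr * ((l + (n + 3) : ℕ) : ℝ) ^ 6 * (c0 ^ (-(1 - r)) * (ρ ^ l * (ρ ^ 1)⁻¹)) := by
          refine mul_le_mul (mul_le_mul_of_nonneg_left h2 (by linarith))
            (mul_le_mul_of_nonneg_left (hpow l) hK.le) (by positivity) (by positivity)
      _ = Cr * (((l + (n + 3) : ℕ) : ℝ) ^ 6 * ρ ^ (l + (n + 3))) * c0 ^ (-(1 - r)) *
            (ρ ^ (n + 3))⁻¹ * (ρ ^ 1)⁻¹ := by
          rw [pow_add ρ l (n + 3)]
          field_simp
      _ ≤ _ := by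
          have : 0 ≤ c0 ^ (-(1 - r)) * (ρ ^ (n + 3))⁻¹ * (ρ ^ 1)⁻¹ := by positivity
          have h5 : Cr * (((l + (n + 3) : ℕ) : ℝ) ^ 6 * ρ ^ (l + (n + 3))) ≤ Cr * B :=
            mul_le_mul_of_nonneg_left h4 (by linarith)
          nlinarith [mul_le_mul_of_nonneg_right h5 this]
  obtain ⟨C', hC'⟩ := (Filter.isBoundedUnder_of_eventually_le hbd).bddAbove_range
  refine ⟨max C' 1, lt_of_lt_of_le one_pos (le_max_right _ _), fun l => ?_⟩
  exact (hC' ⟨l, rfl⟩).trans (le_max_left _ _)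

/-- the inequality of the last step -/
lemma last_ineq {a D P x CA cB r q C' : ℝ} (ha : 0 ≤ a) (hx : 0 ≤ x) (hr0 : 0 < r) (hr1 : r < 1)
    (hP : 1 ≤ P) (hCA : 0 < CA) (hcB : 0 < cB) (hq : 0 < q) (hD : q ≤ D) (h1 : a * D ≤ CA)
    (h2 : cB ≤ x * (P * D)) (h3 : P * q ^ (-(1 - r)) ≤ C') :
    a ≤ CA * cB ^ (-r) * C' * x ^ r := by
  have hD0 : 0 < D := hq.trans_le hD
  have hP0 : 0 < P := one_pos.trans_le hP
  have hx0 : 0 < x := by
    rcases hx.lt_or_eq with h | h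
    · exact h
    · rw [← h, zero_mul] at h2; linarith
  have e1 : 1 ≤ cB ^ (-r) * (x ^ r * (P ^ r * D ^ r)) := by
    have h4 : cB ^ r ≤ (x * (P * D)) ^ r := Real.rpow_le_rpow hcB.le h2 hr0.le
    rw [Real.mul_rpow hx0.le (by positivity), Real.mul_rpow hP0.le hD0.le] at h4
    have h5 : cB ^ (-r) * cB ^ r = 1 := by
      rw [← Real.rpow_add hcB]; simp
    rw [← h5]
    exact mul_le_mul_of_nonneg_left h4 (Real.rpow_pos_of_pos hcB _).le
  have e2 : P ^ r ≤ P := by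
    calc P ^ r ≤ P ^ (1 : ℝ) := Real.rpow_le_rpow_of_exponent_le hP hr1.le
      _ = P := Real.rpow_one P
  have e3 : D ^ (-(1 - r)) ≤ q ^ (-(1 - r)) :=
    Real.rpow_le_rpow_of_nonpos hq hD (by linarith)
  have e4 : D ^ r = D * D ^ (-(1 - r)) := by
    have : D ^ (1 + -(1 - r)) = D ^ (1 : ℝ) * D ^ (-(1 - r)) := Real.rpow_add hD0 _ _
    rw [Real.rpow_one] at this
    rw [← this]
    congr 1
    ring
  have e5 : 0 < cB ^ (-r) := Real.rpow_pos_of_pos hcB _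
  have e6 : 0 < x ^ r := Real.rpow_pos_of_pos hx0 _
  have e7 : 0 < D ^ (-(1 - r)) := Real.rpow_pos_of_pos hD0 _
  calc a = a * 1 := (mul_one a).symm
    _ ≤ a * (cB ^ (-r) * (x ^ r * (P ^ r * D ^ r))) := mul_le_mul_of_nonneg_left e1 ha
    _ = (a * D) * (cB ^ (-r) * x ^ r * (P ^ r * D ^ (-(1 - r)))) := by rw [e4]; ring
    _ ≤ CA * (cB ^ (-r) * x ^ r * (P ^ r * D ^ (-(1 - r)))) := by
        refine mul_le_mul_of_nonneg_right h1 ?_
        have : 0 < P ^ r := Real.rpow_pos_of_pos hP0 _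
        positivity
    _ ≤ CA * (cB ^ (-r) * x ^ r * C') := by
        refine mul_le_mul_of_nonneg_left (mul_le_mul_of_nonneg_left ?_ (by positivity)) hCA.le
        refine le_trans ?_ h3
        exact mul_le_mul e2 e3 e7.le hP0.le
    _ = _ := by ring

theorem hol (hA : THA) (hB : THB) (hN : THN) (hL : TLB) (hy : THyp) : THol := by
  classical
  intro lam hlam d n hd hdg e0 e1 hW r hr0 hr1
  obtain ⟨jA, KA, CA, hjA, hKA, hCA, hA⟩ := hA lam hlam
  obtain ⟨jB, KB, cB, hjB, hKB, hcB, hB⟩ := hB lam hlam d n hd e0 e1 hW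
  obtain ⟨j0, hj0A, hj0B⟩ : ∃ j0, jA ≤ j0 ∧ jB ≤ j0 := ⟨max jA jB, le_max_left _ _, le_max_right _ _⟩
  obtain ⟨K0, hK0A, hK0B⟩ : ∃ K0, KA ≤ K0 ∧ KB ≤ K0 := ⟨max KA KB, le_max_left _ _, le_max_right _ _⟩
  have hj0 : 2 ≤ j0 := hjA.trans hj0A
  have hK0 : 1 ≤ K0 := hKA.trans hK0A
  obtain ⟨Cr, hCr, hN⟩ := hN lam hlam K0 hK0
  have hN := hN d n hd
  have hA := hA d n hd e0 e1 hW
  have hδ : lam / 2 ≠ 0 := by positivity
  obtain ⟨c0, hc0, hLB⟩ := hL (lam / 2) 1 hδ zero_le_one (one_lt_cc hδ)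
  set β := sh d n with hβdef
  have hβ : ∀ k, 1 ≤ β k := fun k => hd _
  obtain ⟨C, hC⟩ := Pool.Agent.W308.Stu.tBdd lam hlam
  have hR : ∀ E ∈ Sp lam β, |E| ≤ 2 * C := by
    intro E hE
    have h1 := (hC β hβ E hE 0).2.1
    have h2 : (orb β (lin lam E) 0).y = E / 2 := rfl
    rw [h2, abs_div, abs_two] at h1
    linarith
  -- bound of the derivatives at the two possible starting states
  have hcont : Continuous fun E => |Vy β j0 (lin lam E)| + |Vy β (j0 + 1) (lin lam E)| := by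
    have h1 := (cont_Vy β j0).comp (cont_lin lam)
    have h2 := (cont_Vy β (j0 + 1)).comp (cont_lin lam)
    simp only [Function.comp_def, ofL_toL] at h1 h2
    exact h1.abs.add h2.abs
  obtain ⟨Dm, hDm⟩ := (isCompact_Icc (a := -(2 * C)) (b := 2 * C)).bddAbove_image hcont.continuousOn
  have hDm' : ∀ E ∈ Sp lam β, |Vy β j0 (lin lam E)| + |Vy β (j0 + 1) (lin lam E)| ≤ Dm := by
    intro E hE
    exact hDm ⟨E, abs_le.1 (hR E hE), rfl⟩
  obtain ⟨C', hC'0, hC'⟩ := growth (β := β) (n := n) (c0 := c0) (Cr := Cr) (r := r) (by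
    have h1 : Tendsto (fun l : ℕ => n + 1 + l) atTop atTop :=
      tendsto_atTop_mono (fun l => (by show l ≤ n + 1 + l; omega)) tendsto_id
    filter_upwards [h1.eventually hdg] with l hl
    have h2 : β l = d (n + 1 + l) := rfl
    rw [h2]
    refine hl.trans (le_of_eq ?_)
    ring) hc0 hCr hr1
  set D1 : ℝ := max Dm 1 with hD1
  have hD1p : 1 ≤ D1 := le_max_right _ _
  refine ⟨max (4 * C) 1 * (D1 / cB) ^ r + CA * cB ^ (-r) * C', by
    have : 0 < cB ^ (-r) := Real.rpow_pos_of_pos hcB _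
    positivity, ?_⟩
  intro E0 hE0 E0' hE0' E1 E1' hH hH'
  have hxr : 0 ≤ |E1 - E1'| ^ r := Real.rpow_nonneg (abs_nonneg _) _
  have hc1 : 0 ≤ max (4 * C) 1 * (D1 / cB) ^ r := by positivity
  have hc2 : 0 ≤ CA * cB ^ (-r) * C' := by
    have : 0 < cB ^ (-r) := Real.rpow_pos_of_pos hcB _
    positivity
  by_cases heq : E0 = E0'
  · rw [heq, sub_self, abs_zero]
    positivity
  have hpos : 0 < |E0 - E0'| := abs_pos.2 (sub_ne_zero.2 heq)
  -- a state with a large level function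
  have hsub : ∀ e ∈ Set.uIcc E1 E1', |E1 - e| ≤ |E1 - E1'| := by
    intro e he
    rw [abs_sub_comm E1 e, abs_sub_comm E1 E1']
    exact Set.abs_sub_left_of_mem_uIcc he
  have hBs : ∀ s : St, s.Valid lam β E0 j0 K0 →
      (∃ e ∈ Set.uIcc E1 E1', kap lam 2 < |s.fn β (Ga lam d n e)|) →
      cB ≤ |E1 - E1'| * s.D lam β E0 := by
    rintro s hs ⟨e, he, hel⟩
    refine (hB E0 hE0 E1 hH s (valid_mono hj0B hK0B hs) e hel).trans ?_
    exact mul_le_mul_of_nonneg_right (hsub e he) (abs_nonneg _)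
  -- a bound for the levels of good states
  have hlow : ∀ s : St, s.Valid lam β E0 j0 K0 → c0 * 2 ^ (s.lv / 2) ≤ s.D lam β E0 :=
    fun s hs => D_lower hlam hy hLB hβ hE0 hj0 hK0 hs
  have hgood : ∀ s : St, s.Valid lam β E0 j0 K0 → s.Ok lam d n E1 E1' →
      |E0 - E0'| * s.D lam β E0 ≤ CA := fun s hs hok =>
    hA E0 hE0 E0' hE0' E1 E1' hH hH' s (valid_mono hj0A hK0A hs) hok
  obtain ⟨N, hNN⟩ : ∃ N : ℕ, CA / |E0 - E0'| / c0 < 2 ^ N := pow_unbounded_of_one_lt _ one_lt_two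
  have hfin : {s : St | s.Valid lam β E0 j0 K0 ∧ s.Ok lam d n E1 E1'}.Finite := by
    refine (finite_states β lam E0 j0 K0 (2 * N + 2)).subset ?_
    rintro s ⟨hs, hok⟩
    refine ⟨hs, ?_⟩
    by_contra hcon
    have h1 : N ≤ s.lv / 2 := by omega
    have h2 : (2 : ℝ) ^ N ≤ 2 ^ (s.lv / 2) := pow_le_pow_right₀ one_le_two h1
    have h3 := hgood s hs hok
    have h4 := hlow s hs
    have h5 : c0 * 2 ^ N ≤ s.D lam β E0 := (mul_le_mul_of_nonneg_left h2 hc0.le).trans h4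
    have h6 : |E0 - E0'| * (c0 * 2 ^ N) ≤ CA := (mul_le_mul_of_nonneg_left h5 hpos.le).trans h3
    rw [div_lt_iff₀ hc0, div_lt_iff₀ hpos] at hNN
    linarith
  rcases Set.eq_empty_or_nonempty {s : St | s.Valid lam β E0 j0 K0 ∧ s.Ok lam d n E1 E1'} with
    hemp | hne
  · -- no good state: the starting state is not good
    obtain ⟨j, hj, hjv⟩ : ∃ j, (j = j0 ∨ j = j0 + 1) ∧ (St.Y j).Valid lam β E0 j0 K0 := by
      rcases start_valid hE0 j0 K0 with h | h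
      · exact ⟨j0, Or.inl rfl, h⟩
      · exact ⟨j0 + 1, Or.inr rfl, h⟩
    have hnot : ¬ (St.Y j).Ok lam d n E1 E1' := by
      intro hok
      have : St.Y j ∈ {s : St | s.Valid lam β E0 j0 K0 ∧ s.Ok lam d n E1 E1'} := ⟨hjv, hok⟩
      rw [hemp] at this
      exact this
    have hex : ∃ e ∈ Set.uIcc E1 E1', kap lam 2 < |(St.Y j).fn β (Ga lam d n e)| := by
      by_contra hcon
      push Not at hcon
      exact hnot fun e he => hcon e he
    have h1 := hBs _ hjv hex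
    have h2 : (St.Y j).D lam β E0 ≤ D1 := by
      have h3 := hDm' E0 hE0
      have h4 : (St.Y j).D lam β E0 = |Vy β j (lin lam E0)| := rfl
      rw [h4]
      rcases hj with h | h
      · rw [h]
        have := abs_nonneg (Vy β (j0 + 1) (lin lam E0))
        exact (by linarith : _ ≤ Dm).trans (le_max_left _ _)
      · rw [h]
        have := abs_nonneg (Vy β j0 (lin lam E0))
        exact (by linarith : _ ≤ Dm).trans (le_max_left _ _)
    have h3 : cB ≤ |E1 - E1'| * D1 := h1.trans (mul_le_mul_of_nonneg_left h2 (abs_nonneg _))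
    have h4 : 1 ≤ (D1 / cB) ^ r * |E1 - E1'| ^ r := by
      rw [← Real.mul_rpow (by positivity) (abs_nonneg _)]
      refine Real.one_le_rpow ?_ hr0.le
      rw [div_mul_eq_mul_div, le_div_iff₀ hcB]
      linarith
    have h5 : |E0 - E0'| ≤ max (4 * C) 1 := by
      refine le_trans ?_ (le_max_left _ _)
      have h6 := hR E0 hE0
      have h7 := hR E0' hE0'
      have h8 := abs_sub E0 E0'
      linarith
    calc |E0 - E0'| ≤ max (4 * C) 1 * 1 := by rw [mul_one]; exact h5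
      _ ≤ max (4 * C) 1 * ((D1 / cB) ^ r * |E1 - E1'| ^ r) :=
          mul_le_mul_of_nonneg_left h4 (by positivity)
      _ ≤ _ := by nlinarith [mul_nonneg hc2 hxr]
  · obtain ⟨s, ⟨hs, hok⟩, hmax⟩ := Set.exists_max_image _ (fun s : St => s.mu β) hfin hne
    obtain ⟨s', hs', hmu, hD', hnext⟩ := hN E0 hE0 j0 hj0 s hs
    have hnok : ¬ s'.Ok lam d n E1 E1' := by
      intro hok'
      have := hmax s' ⟨hs', hok'⟩
      linarith
    have h1 := hBs s' hs' (hnext E1 E1' hok hnok)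
    have h2 : cB ≤ |E1 - E1'| * (Cr * (1 + (β s.lv : ℝ)) ^ 3 * s.D lam β E0) :=
      h1.trans (mul_le_mul_of_nonneg_left hD' (abs_nonneg _))
    have hP : 1 ≤ Cr * (1 + (β s.lv : ℝ)) ^ 3 := by
      have h3 : (1 : ℝ) ≤ (1 + (β s.lv : ℝ)) ^ 3 := one_le_pow₀ (by
        have : (0 : ℝ) ≤ β s.lv := Nat.cast_nonneg _
        linarith)
      nlinarith
    have h3 := last_ineq (abs_nonneg (E0 - E0')) (abs_nonneg (E1 - E1')) hr0 hr1 hP hCA hcB
      (by positivity) (hlow s hs) (hgood s hs hok) h2 (hC' s.lv)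
    refine h3.trans ?_
    nlinarith [mul_nonneg hc1 hxr]

end Pool.Agent.W338.Stu
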